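import Mathlib
import Pool.Agent.H31.Spec4
import Pool.Agent.H54.Spec

set_option autoImplicit false
open Matrix Finset SimpleGraph

namespace Pool.Agent.Results.MP_7ca01f_co.Unbounded

variable {V : Type} [Fintype V] [DecidableEq V]

noncomputable def lam (A : Matrix V V ℝ) : ℝ := sSup (spectrum ℝ A)

def lap (W : Matrix V V ℝ) : Matrix V V ℝ := diagonal (fun i => ∑ j, W i j) - W

/-- W is the weighted adjacency matrix of an edge-deleting sparsifier of G. -/
def Sparsifier (G : SimpleGraph V) [DecidableRel G.Adj] (ε : ℝ) (W : Matrix V V ℝ) : Prop :=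
  W.IsSymm ∧ (∀ u v, 0 ≤ W u v) ∧ (∀ u v, W u v ≠ 0 → G.Adj u v) ∧ (∃ u v, G.Adj u v ∧ W u v = 0) ∧
    ∀ x, (1 - ε) * (x ⬝ᵥ G.lapMatrix ℝ *ᵥ x) ≤ x ⬝ᵥ lap W *ᵥ x ∧
      x ⬝ᵥ lap W *ᵥ x ≤ (1 + ε) * (x ⬝ᵥ G.lapMatrix ℝ *ᵥ x)

def H (N : ℕ) : SimpleGraph (Fin 3 ⊕ Fin N) where
  Adj
    | .inl a, .inl b => a ≠ b
    | .inr _, .inr _ => False
    | _, _ => True
  symm := ⟨by rintro (a | a) (b | b) h; exacts [Ne.symm h, trivial, trivial, h]⟩
  loopless := ⟨by rintro (a | a) h; exacts [h rfl, h]⟩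

instance (N : ℕ) : DecidableRel (H N).Adj := fun a b =>
  match a, b with
  | .inl a, .inl b => inferInstanceAs (Decidable (a ≠ b))
  | .inr _, .inr _ => isFalse id
  | .inl _, .inr _ => isTrue trivial
  | .inr _, .inl _ => isTrue trivial

noncomputable def W (N : ℕ) : Matrix (Fin 3 ⊕ Fin N) (Fin 3 ⊕ Fin N) ℝ
  | .inl a, .inl b => !![0, 0, 1; 0, 0, 1 + (N : ℝ) / 4; 1, 1 + (N : ℝ) / 4, 0] a b
  | .inr _, .inr _ => 0
  | _, _ => 1

theorem result (C : ℝ) : ∃ (V : Type) (_ : Fintype V) (_ : DecidableEq V) (G : SimpleGraph V)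
    (_ : DecidableRel G.Adj) (ε : ℝ) (W : Matrix V V ℝ), G.Connected ∧ 0 < ε ∧ ε < 1 ∧
    Sparsifier G ε W ∧ 0 < lam (G.adjMatrix ℝ) ∧
    C < |lam W - lam (G.adjMatrix ℝ)| / (ε * lam (G.adjMatrix ℝ)) := by
  obtain ⟨M, hM⟩ := exists_nat_gt (max 2 (6 * (C + 2)))
  have m1 := lt_of_le_of_lt (le_max_left _ _) hM
  have m2 := lt_of_le_of_lt (le_max_right _ _) hM
  obtain ⟨N, hN⟩ : ∃ N : ℕ, (N : ℝ) = M ^ 2 := ⟨M ^ 2, by simp⟩
  have s : (W N).IsSymm := IsSymm.ext (by
    rintro (a | a) (b | b) <;> simp only [W]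
    fin_cases a <;> fin_cases b <;> rfl)
  have a : ∀ a b, ((H N).Adj (.inl a) (.inl b) ↔ a ≠ b) := fun _ _ => .rfl
  have a1 : ∀ a b, ((H N).Adj (.inr a) (.inr b) ↔ False) := fun _ _ => .rfl
  have a2 : ∀ a b, ((H N).Adj (.inl a) (.inr b) ↔ True) := fun _ _ => .rfl
  have a3 : ∀ a b, ((H N).Adj (.inr a) (.inl b) ↔ True) := fun _ _ => .rfl
  have l1 := H54.Spec.rayleigh _ (H31.Spec.herm (H N)) (Pi.single (.inl 0) 1 + Pi.single (.inl 1) 1)
  have l2 := H54.Spec.rayleigh (W N) (by rwa [IsHermitian, conjTranspose_eq_transpose_of_trivial])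
    (Pi.single (.inl 1) 1 + Pi.single (.inl 2) 1)
  simp [mulVec_add, -adjMatrix_mulVec_apply, a, W] at l1 l2
  have l3 : lam ((H N).adjMatrix ℝ) ≤ 3 * M := Real.sSup_le (fun t ht => by
    have := H31.Spec.sq_le (H N) (6 * N + 6) (fun v => by
      have d1 : ∀ u, (H N).degree (.inl u) ≤ N + 2 := fun u => by
        have := (H N).degree_lt_card_verts (.inl u); simp at this; omega
      have d2 : ∀ u, (H N).degree (.inr u) ≤ 3 := fun u => by
        rw [← card_neighborFinset_eq_degree, neighborFinset_eq_filter, card_filter, Fintype.sum_sum_type]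
        simp [a1, a3]
      rw [neighborFinset_eq_filter, sum_filter, Fintype.sum_sum_type]
      have d3 := sum_le_card_nsmul univ _ _ fun u _ => d2 u
      have := d1 0; have := d1 1; have := d1 2
      rcases v with v | v
      · simp only [a2, if_true, Fin.sum_univ_three]
        simp at d3
        split_ifs <;> omega
      · simp [a1, a3, Fin.sum_univ_three]; omega) ht
    push_cast at this
    exact (le_abs_self t).trans (abs_le_of_sq_le_sq' (by nlinarith) (by positivity) |> abs_le.mpr)) (by positivity)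
  refine ⟨_, inferInstance, inferInstance, H N, inferInstance, 1 / 2, W N, ?_, by norm_num,
    by norm_num, ⟨s, ?_, ?_, ⟨.inl 0, .inl 1, by simp [a], by simp [W]⟩, fun x => ?_⟩, by
      unfold lam; linarith, ?_⟩
  · refine (connected_iff_exists_forall_reachable _).mpr ⟨.inl 0, ?_⟩
    rintro (b | b)
    · by_cases h : 0 = b
      · exact h ▸ .refl _
      · exact Adj.reachable h
    · exact Adj.reachable trivial
  · rintro (u | u) (v | v) <;> simp only [W, le_refl, zero_le_one]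
    fin_cases u <;> fin_cases v <;> simp <;> positivity
  · rintro (u | u) (v | v) <;> simp only [W, a, a1, a2, a3, imp_self, ne_eq, not_true, implies_true]
    fin_cases u <;> fin_cases v <;> simp
  · rw [lap, H31.Spec.wlap _ s, ← toLinearMap₂'_apply', lapMatrix_toLinearMap₂']
    have k : ∀ a b, N * (x (.inl a) - x (.inl b)) ^ 2 ≤ 2 * (∑ i, (x (.inl a) - x (.inr i)) ^ 2 +
        ∑ i, (x (.inl b) - x (.inr i)) ^ 2) := fun a b => by
      rw [← sum_add_distrib, mul_sum]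
      refine le_trans (by simp) (card_nsmul_le_sum _ _ ((x (.inl a) - x (.inl b)) ^ 2) fun i _ => ?_)
      nlinarith [sq_nonneg (x (.inl a) + x (.inl b) - 2 * x (.inr i))]
    have k1 := k 0 1
    have k2 := k 1 2
    have p : ∀ a, 0 ≤ ∑ i, (x (.inl a) - x (.inr i)) ^ 2 := fun a => by positivity
    have e : ∀ u v, (x (.inr u) - x (.inl v)) ^ 2 = (x (.inl v) - x (.inr u)) ^ 2 := fun _ _ => by ring
    have n4 : 4 * (x (.inl 0) - x (.inl 1)) ^ 2 ≤ N * (x (.inl 0) - x (.inl 1)) ^ 2 := by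
      gcongr; nlinarith
    have n5 : 0 ≤ N * (x (.inl 1) - x (.inl 2)) ^ 2 := by positivity
    simp [Fintype.sum_sum_type, a, a1, a2, a3, Fin.sum_univ_three, W, e, sum_add_distrib]
    constructor <;> nlinarith [p 0, p 1, p 2, sq_nonneg (x (.inl 0) - x (.inl 1)),
      sq_nonneg (x (.inl 0) - x (.inl 2)), sq_nonneg (x (.inl 1) - x (.inl 2))]
  · unfold lam at *
    rw [lt_div_iff₀ (by linarith)]
    refine lt_of_lt_of_le ?_ (le_abs_self _)
    have : (C + 2) * sSup (spectrum ℝ ((H N).adjMatrix ℝ)) ≤ M / 6 * (3 * M) :=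
      mul_le_mul (by linarith) l3 (by linarith) (by positivity)
    linarith

end Pool.Agent.Results.MP_7ca01f_co.Unbounded
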